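import Pool.Agent.H1.LD.D

set_option autoImplicit false

namespace LD1

open Complex Set Filter Topology MeasureTheory EW1 EX1 ND1
open scoped ComplexConjugate ContDiff Real

theorem LkA_term {μ w ε f : ℂ} {s r C : ℝ} {n : ℕ} (hs : 0 < s) (hr : 0 < r) (hC : ‖f‖ * s ^ n ≤ C)
    (hε : ‖ε‖ ≤ 1) (hw : ‖w‖ < r) (hμ : ‖μ‖ < ‖w‖ * r) :
    ‖f * (w ^ (n + 1) + ε * (μ * w⁻¹) ^ (n + 1))‖ ≤ 2 * C * r * (r / s) ^ n := by
  have hw0 : 0 < ‖w‖ := by
    rcases (norm_nonneg w).lt_or_eq with h | h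
    · exact h
    · rw [← h] at hμ; have := norm_nonneg μ; linarith
  have h1 : ‖μ * w⁻¹‖ ≤ r := by
    rw [norm_mul, norm_inv, ← div_eq_mul_inv, div_le_iff₀ hw0]
    nlinarith
  have h2 : ‖w ^ (n + 1) + ε * (μ * w⁻¹) ^ (n + 1)‖ ≤ 2 * r ^ (n + 1) := by
    refine (norm_add_le _ _).trans ?_
    rw [norm_mul, norm_pow, norm_pow]
    have a1 : ‖w‖ ^ (n + 1) ≤ r ^ (n + 1) := pow_le_pow_left₀ (norm_nonneg _) hw.le _
    have a2 : ‖μ * w⁻¹‖ ^ (n + 1) ≤ r ^ (n + 1) := pow_le_pow_left₀ (norm_nonneg _) h1 _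
    have a3 : ‖ε‖ * ‖μ * w⁻¹‖ ^ (n + 1) ≤ 1 * r ^ (n + 1) :=
      mul_le_mul hε a2 (by positivity) zero_le_one
    linarith
  rw [norm_mul]
  have h3 : ‖f‖ ≤ C / s ^ n := by rw [le_div_iff₀ (by positivity)]; exact hC
  calc ‖f‖ * ‖w ^ (n + 1) + ε * (μ * w⁻¹) ^ (n + 1)‖ ≤ (C / s ^ n) * (2 * r ^ (n + 1)) := by
        gcongr
        exact (norm_nonneg _).trans h3
    _ = 2 * C * r * (r / s) ^ n := by rw [div_pow, pow_succ]; field_simp

theorem LkA_sum {s r C : ℝ} (hs : 0 < s) (hr : 0 < r) (hrs : r < s) : Summable (fun n : ℕ => 2 * C * r * (r / s) ^ n) :=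
  (summable_geometric_of_lt_one (by positivity) (by rw [div_lt_one hs]; exact hrs)).mul_left _

theorem LkA_gen {μ ε : ℂ} {f : ℕ → ℂ} {s r C : ℝ} (hs : 0 < s) (hr : 0 < r) (hrs : r < s) (hC : ∀ n, ‖f n‖ * s ^ n ≤ C)
    (hε : ‖ε‖ ≤ 1) : DifferentiableOn ℂ (fun w => ∑' n : ℕ, f n * (w ^ (n + 1) + ε * (μ * w⁻¹) ^ (n + 1))) {w | ‖w‖ < r ∧ ‖μ‖ < ‖w‖ * r} ∧
    ∀ w : ℂ, ‖w‖ < r → ‖μ‖ < ‖w‖ * r → Summable (fun n : ℕ => f n * (w ^ (n + 1) + ε * (μ * w⁻¹) ^ (n + 1))) := by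
  constructor
  · refine Complex.differentiableOn_tsum_of_summable_norm (LkA_sum (C := C) hs hr hrs) (fun n => ?_) ?_ (fun n w hw => ?_)
    · intro w hw
      have hw0 : w ≠ 0 := by
        rintro rfl
        have := hw.2; rw [norm_zero, zero_mul] at this; have := norm_nonneg μ; linarith
      have : DifferentiableAt ℂ (fun w : ℂ => w⁻¹) w := differentiableAt_inv hw0
      exact (((differentiableAt_id.pow _).add (((this.const_mul μ).pow _).const_mul ε)).const_mul (f n)).differentiableWithinAt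
    · exact (isOpen_lt continuous_norm continuous_const).inter (isOpen_lt continuous_const (continuous_norm.mul continuous_const))
    · exact LkA_term hs hr (hC n) hε hw.1 hw.2
  · intro w hw hw'
    exact Summable.of_norm_bounded (LkA_sum (C := C) hs hr hrs) (fun n => LkA_term hs hr (hC n) hε hw hw')

theorem LkA_loc {μ ε : ℂ} {f : ℕ → ℂ} {s m C : ℝ} {w : ℂ} (hm : ‖w‖ ≤ m) (hm' : ‖μ‖ ≤ ‖w‖ * m) (hw : w ≠ 0) (hms : m < s)
    (hC : ∀ n, ‖f n‖ * s ^ n ≤ C)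
    (hε : ‖ε‖ ≤ 1) : DifferentiableAt ℂ (fun w => ∑' n : ℕ, f n * (w ^ (n + 1) + ε * (μ * w⁻¹) ^ (n + 1))) w ∧
    Summable (fun n : ℕ => f n * (w ^ (n + 1) + ε * (μ * w⁻¹) ^ (n + 1))) := by
  have hw0 : 0 < ‖w‖ := norm_pos_iff.2 hw
  have hm0 : 0 < m := hw0.trans_le hm
  have hr : m < (m + s) / 2 := by linarith
  have hrs : (m + s) / 2 < s := by linarith
  have h1 : ‖w‖ < (m + s) / 2 := by linarith
  have h2 : ‖μ‖ < ‖w‖ * ((m + s) / 2) := by nlinarith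
  obtain ⟨hd, hsu⟩ := LkA_gen (μ := μ) (hm0.trans hms) (hm0.trans hr) hrs hC hε
  refine ⟨hd.differentiableAt (IsOpen.mem_nhds ?_ ⟨h1, h2⟩), hsu w h1 h2⟩
  exact (isOpen_lt continuous_norm continuous_const).inter (isOpen_lt continuous_const (continuous_norm.mul continuous_const))

theorem sE_hol {μ : ℂ} (hμ : ‖μ‖ < 1) {f : ℕ → ℂ} (hf : Gr f) : DifferentiableOn ℂ (sE μ f) {w | ‖μ‖ < ‖w‖ ∧ ‖w‖ < 1} ∧
    ∀ w : ℂ, ‖μ‖ < ‖w‖ → ‖w‖ < 1 → Summable (fun n : ℕ => f n * (w ^ (n + 1) - (μ * w⁻¹) ^ (n + 1))) := by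
  have key : ∀ w : ℂ, ‖μ‖ < ‖w‖ → ‖w‖ < 1 → DifferentiableAt ℂ (sE μ f) w ∧
      Summable (fun n : ℕ => f n * (w ^ (n + 1) - (μ * w⁻¹) ^ (n + 1))) := by
    intro w h1 h2
    have hw0 : 0 < ‖w‖ := (norm_nonneg μ).trans_lt h1
    have hw : w ≠ 0 := norm_pos_iff.1 hw0
    set m : ℝ := max ‖w‖ (‖μ‖ / ‖w‖) with hm
    have hm1 : m < 1 := max_lt h2 (by rw [div_lt_one hw0]; exact h1)
    have hmw : ‖w‖ ≤ m := le_max_left _ _
    have hmμ : ‖μ‖ ≤ ‖w‖ * m := by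
      have : ‖μ‖ / ‖w‖ ≤ m := le_max_right _ _
      rw [div_le_iff₀ hw0] at this; linarith
    obtain ⟨C, hC⟩ := hf ((m + 1) / 2) (by linarith) (by linarith)
    have := LkA_loc (μ := μ) (ε := -1) hmw hmμ hw (by linarith : m < (m + 1) / 2) hC (by simp)
    have e : ∀ w : ℂ, (fun n : ℕ => f n * (w ^ (n + 1) + -1 * (μ * w⁻¹) ^ (n + 1))) = fun n : ℕ => f n * (w ^ (n + 1) - (μ * w⁻¹) ^ (n + 1)) := by
      intro w; funext n; ring
    simp only [e] at this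
    exact this
  exact ⟨fun w hw => (key w hw.1 hw.2).1.differentiableWithinAt, fun w h1 h2 => (key w h1 h2).2⟩

theorem sY_hol {μ : ℂ} (hμ : ‖μ‖ < 1) (y : ℂ) {g : ℕ → ℂ} (hg : Dc μ g) :
    DifferentiableOn ℂ (sY μ y g) {w | ‖μ‖ ^ 2 < ‖w‖ ∧ ‖w‖ * ‖μ‖ < 1} ∧ DifferentiableOn ℂ (sE μ g) {w | ‖μ‖ ^ 2 < ‖w‖ ∧ ‖w‖ * ‖μ‖ < 1} ∧
    ∀ w : ℂ, ‖μ‖ ^ 2 < ‖w‖ → ‖w‖ * ‖μ‖ < 1 → Summable (fun n : ℕ => g n * (w ^ (n + 1) + (μ * w⁻¹) ^ (n + 1))) ∧
      Summable (fun n : ℕ => g n * (w ^ (n + 1) - (μ * w⁻¹) ^ (n + 1))) := by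
  have key : ∀ w : ℂ, ‖μ‖ ^ 2 < ‖w‖ → ‖w‖ * ‖μ‖ < 1 → ∀ ε : ℂ, ‖ε‖ ≤ 1 →
      DifferentiableAt ℂ (fun w => ∑' n : ℕ, g n * (w ^ (n + 1) + ε * (μ * w⁻¹) ^ (n + 1))) w ∧
      Summable (fun n : ℕ => g n * (w ^ (n + 1) + ε * (μ * w⁻¹) ^ (n + 1))) := by
    intro w h1 h2 ε hε
    have hw0 : 0 < ‖w‖ := (by positivity : (0:ℝ) ≤ ‖μ‖ ^ 2).trans_lt h1
    have hw : w ≠ 0 := norm_pos_iff.1 hw0
    set m : ℝ := max ‖w‖ (‖μ‖ / ‖w‖) with hm
    have hm1 : m * ‖μ‖ < 1 := by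
      rcases max_choice ‖w‖ (‖μ‖ / ‖w‖) with h | h
      · rw [hm, h]; exact h2
      · rw [hm, h, div_mul_eq_mul_div, div_lt_one hw0]; nlinarith
    have hmw : ‖w‖ ≤ m := le_max_left _ _
    have hmμ : ‖μ‖ ≤ ‖w‖ * m := by
      have : ‖μ‖ / ‖w‖ ≤ m := le_max_right _ _
      rw [div_le_iff₀ hw0] at this; linarith
    have hm0 : 0 < m := hw0.trans_le hmw
    have hμ0 := norm_nonneg μ
    set s : ℝ := m + (1 - m * ‖μ‖) / 4 with hs
    have hms : m < s := by rw [hs]; linarith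
    obtain ⟨C, hC⟩ := hg s (by linarith) (by rw [hs]; nlinarith)
    exact LkA_loc (μ := μ) (ε := ε) hmw hmμ hw hms hC hε
  have e1 : ∀ w : ℂ, (fun n : ℕ => g n * (w ^ (n + 1) + -1 * (μ * w⁻¹) ^ (n + 1))) = fun n : ℕ => g n * (w ^ (n + 1) - (μ * w⁻¹) ^ (n + 1)) := by
    intro w; funext n; ring
  have e2 : ∀ w : ℂ, (fun n : ℕ => g n * (w ^ (n + 1) + 1 * (μ * w⁻¹) ^ (n + 1))) = fun n : ℕ => g n * (w ^ (n + 1) + (μ * w⁻¹) ^ (n + 1)) := by
    intro w; funext n; ring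
  refine ⟨fun w hw => ?_, fun w hw => ?_, fun w h1 h2 => ⟨?_, ?_⟩⟩
  · have := (key w hw.1 hw.2 1 (by simp)).1
    simp only [e2] at this
    exact (this.const_add y).differentiableWithinAt
  · have := (key w hw.1 hw.2 (-1) (by simp)).1
    simp only [e1] at this
    exact this.differentiableWithinAt
  · have := (key w h1 h2 1 (by simp)).2
    rwa [e2] at this
  · have := (key w h1 h2 (-1) (by simp)).2
    rwa [e1] at this

theorem LkA_zpow {ρ : ℝ} (hρ : 0 < ρ) (m : ℤ) :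
    ∫ t in (0 : ℝ)..(2 * π), pr ρ t ^ m = if m = 0 then (2 * π : ℂ) else 0 := by
  have h1 : ∀ t : ℝ, pr ρ t ^ m = (ρ : ℂ) ^ m * exp ((m * I) * t) := by
    intro t
    rw [pr, mul_zpow, ← Complex.exp_int_mul]
    congr 2
    ring
  simp only [h1]
  rw [intervalIntegral.integral_const_mul]
  split_ifs with h
  · subst h
    simp
  · have hm : (m : ℂ) * I ≠ 0 := mul_ne_zero (by exact_mod_cast h) I_ne_zero
    rw [integral_exp_mul_complex hm]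
    have h2 : (m : ℂ) * I * ((2 * π : ℝ) : ℂ) = m * (2 * π * I) := by push_cast; ring
    rw [h2, Complex.exp_int_mul_two_pi_mul_I]
    simp

theorem LkA_norm {ρ : ℝ} (hρ : 0 < ρ) (t : ℝ) : ‖pr ρ t‖ = ρ := by
  rw [pr, norm_mul, Complex.norm_exp_ofReal_mul_I, mul_one, Complex.norm_real, Real.norm_of_nonneg hρ.le]

theorem LkA_pr0 {ρ : ℝ} (hρ : 0 < ρ) (t : ℝ) : pr ρ t ≠ 0 := by
  rw [← norm_pos_iff, LkA_norm hρ]; exact hρ

theorem LkA_prc (ρ : ℝ) : Continuous (fun t : ℝ => pr ρ t) := by unfold pr; fun_prop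

/-- the Laurent coefficients of positive order of `sE` -/
theorem cz_sE {μ : ℂ} {f : ℕ → ℂ} (hf : Gr f) {r : ℝ} (h1 : ‖μ‖ < r) (h2 : r < 1) (m : ℕ) : cz r (sE μ f) ((m : ℤ) + 1) = f m := by
  have hr : 0 < r := (norm_nonneg μ).trans_lt h1
  set q : ℝ := max r (‖μ‖ / r) with hq
  have hq1 : q < 1 := max_lt h2 (by rw [div_lt_one hr]; exact h1)
  have hqr : r ≤ q := le_max_left _ _
  have hqμ : ‖μ‖ ≤ r * q := by
    have : ‖μ‖ / r ≤ q := le_max_right _ _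
    rw [div_le_iff₀ hr] at this; linarith
  have hq0 : 0 < q := hr.trans_le hqr
  obtain ⟨C, hC⟩ := hf ((q + 1) / 2) (by linarith) (by linarith)
  set r' : ℝ := (q + (q + 1) / 2) / 2 with hr'
  have hr'0 : 0 < r' := by linarith
  have a1 : r < r' := by linarith
  have a2 : r' < (q + 1) / 2 := by linarith
  have a3 : ‖μ‖ < r * r' := by nlinarith
  have hT : ∀ (t : ℝ) (n : ℕ), ‖f n * (pr r t ^ (n + 1) + -1 * (μ * (pr r t)⁻¹) ^ (n + 1))‖ ≤ 2 * C * r' * (r' / ((q + 1) / 2)) ^ n :=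
    fun t n => LkA_term (by linarith) hr'0 (hC n) (by simp) (by rw [LkA_norm hr]; exact a1) (by rw [LkA_norm hr]; exact a3)
  have e1 : ∀ (t : ℝ) (n : ℕ), f n * (pr r t ^ (n + 1) - (μ * (pr r t)⁻¹) ^ (n + 1)) * pr r t ^ (-((m : ℤ) + 1)) =
      f n * pr r t ^ ((n : ℤ) - m) - f n * μ ^ (n + 1) * pr r t ^ (-((n : ℤ) + 1) - (m + 1)) := by
    intro t n
    have h0 := LkA_pr0 hr t
    rw [sub_eq_add_neg (-((n : ℤ) + 1)), zpow_add₀ h0 (-((n : ℤ) + 1)), mul_pow, inv_pow, zpow_neg _ ((n : ℤ) + 1), show ((n : ℤ) - m) = ((n + 1 : ℕ) : ℤ) + -((m : ℤ) + 1) by push_cast; ring,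
      zpow_add₀ h0, zpow_natCast, show ((n : ℤ) + 1) = ((n + 1 : ℕ) : ℤ) by push_cast; ring, zpow_natCast]
    ring
  have hsum : HasSum (fun n : ℕ => ∫ t in (0 : ℝ)..(2 * π), f n * (pr r t ^ (n + 1) - (μ * (pr r t)⁻¹) ^ (n + 1)) * pr r t ^ (-((m : ℤ) + 1)))
      (∫ t in (0 : ℝ)..(2 * π), sE μ f (pr r t) * pr r t ^ (-((m : ℤ) + 1))) := by
    refine intervalIntegral.hasSum_integral_of_dominated_convergence
      (fun (n : ℕ) (_ : ℝ) => (2 * C * r' * (r' / ((q + 1) / 2)) ^ n) * r ^ (-((m : ℤ) + 1))) (fun n => ?_) (fun n => ?_) ?_ ?_ ?_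
    · refine Continuous.aestronglyMeasurable ?_
      simp only [e1]
      exact (continuous_const.mul ((LkA_prc r).zpow₀ _ fun t => Or.inl (LkA_pr0 hr t))).sub
        (continuous_const.mul ((LkA_prc r).zpow₀ _ fun t => Or.inl (LkA_pr0 hr t)))
    · refine Filter.Eventually.of_forall fun t _ => ?_
      rw [norm_mul, norm_zpow, LkA_norm hr]
      refine mul_le_mul_of_nonneg_right ?_ (by positivity)
      have := hT t n
      rwa [neg_one_mul, ← sub_eq_add_neg] at this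
    · refine Filter.Eventually.of_forall fun t _ => ?_
      exact (LkA_sum (C := C) (by linarith) hr'0 a2).mul_right _
    · exact intervalIntegrable_const
    · refine Filter.Eventually.of_forall fun t _ => ?_
      refine HasSum.mul_right _ ?_
      have hs : Summable (fun n : ℕ => f n * (pr r t ^ (n + 1) - (μ * (pr r t)⁻¹) ^ (n + 1))) :=
        Summable.of_norm_bounded (LkA_sum (C := C) (by linarith) hr'0 a2) (fun n => by
          have := hT t n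
          rwa [neg_one_mul, ← sub_eq_add_neg] at this)
      exact hs.hasSum
  have hI : ∀ n : ℕ, (∫ t in (0 : ℝ)..(2 * π), f n * (pr r t ^ (n + 1) - (μ * (pr r t)⁻¹) ^ (n + 1)) * pr r t ^ (-((m : ℤ) + 1))) =
      if n = m then 2 * π * f m else 0 := by
    intro n
    simp only [e1]
    rw [intervalIntegral.integral_sub, intervalIntegral.integral_const_mul, intervalIntegral.integral_const_mul, LkA_zpow hr, LkA_zpow hr,
      if_neg (by omega : ¬ (-((n : ℤ) + 1) - (m + 1)) = 0)]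
    · by_cases h : n = m
      · subst h; simp; ring
      · rw [if_neg (by omega), if_neg h]; ring
    · exact (continuous_const.mul ((LkA_prc r).zpow₀ _ fun t => Or.inl (LkA_pr0 hr t))).intervalIntegrable _ _
    · exact (continuous_const.mul ((LkA_prc r).zpow₀ _ fun t => Or.inl (LkA_pr0 hr t))).intervalIntegrable _ _
  simp only [hI] at hsum
  have h4 := hsum.unique (hasSum_ite_eq m (2 * π * f m))
  rw [cz, h4]
  field_simp

theorem sE_inj {μ : ℂ} (hμ : ‖μ‖ < 1) {f : ℕ → ℂ} (hf : Gr f) (h : ∀ w : ℂ, ‖μ‖ < ‖w‖ → ‖w‖ < 1 → sE μ f w = 0) (n : ℕ) : f n = 0 := by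
  obtain ⟨r, h1, h2⟩ := exists_between hμ
  have hr : 0 < r := (norm_nonneg μ).trans_lt h1
  rw [← cz_sE hf h1 h2 n, cz]
  have : ∀ t : ℝ, sE μ f (pr r t) = 0 := fun t => h _ (by rw [LkA_norm hr]; exact h1) (by rw [LkA_norm hr]; exact h2)
  simp [this]

end LD1
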